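import Pool.Agent.Helper14.CV.StA

/-!
# Project CV, module A2c

If the primitive of a cusp form satisfies the Hecke relation up to a constant then the form is an
eigenform: uniqueness of power series coefficients in `q = exp (2 π i z)`.
-/

set_option autoImplicit false

open Pool.Agent.Helper14.CV

namespace Pool.Agent.Helper71.CV

open Filter Topology

/-- A power series which is constant on the punctured unit disc is constant. -/
private lemma coeff_zero_of_const (c : ℕ → ℂ) (k : ℂ)
    (h : ∀ q : ℂ, q ≠ 0 → ‖q‖ < 1 → HasSum (fun m : ℕ => c m * q ^ m) k) :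
    ∀ m : ℕ, m ≠ 0 → c m = 0 := by
  intro m hm
  set p : FormalMultilinearSeries ℂ ℂ ℂ := FormalMultilinearSeries.ofScalars ℂ c with hp
  have hpc : ∀ n, p.coeff n = c n := by
    intro n
    rw [hp]
    simp [FormalMultilinearSeries.coeff_ofScalars]
  set g : ℂ → ℂ := fun q => if q = 0 then c 0 else k with hg
  have hgp : HasFPowerSeriesAt g p 0 := by
    rw [hasFPowerSeriesAt_iff]
    have hball : Metric.ball (0 : ℂ) 1 ∈ 𝓝 (0 : ℂ) := Metric.ball_mem_nhds _ one_pos
    filter_upwards [hball] with z hz
    simp only [Metric.mem_ball, dist_zero_right] at hz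
    simp only [hpc, smul_eq_mul, zero_add]
    by_cases h0 : z = 0
    · subst h0
      have h1 : HasSum (fun n : ℕ => (0 : ℂ) ^ n * c n) ((0 : ℂ) ^ 0 * c 0) := by
        refine hasSum_single 0 ?_
        intro n hn
        rw [zero_pow hn, zero_mul]
      simpa [hg] using h1
    · have h1 := h z h0 hz
      have h2 : (fun n : ℕ => z ^ n * c n) = fun n : ℕ => c n * z ^ n := by
        funext n
        ring
      rw [h2]
      simpa [hg, h0] using h1
  have hcont : ContinuousAt g 0 := hgp.continuousAt
  have h0k : c 0 = k := by
    have h1 : Tendsto g (𝓝[≠] 0) (𝓝 (g 0)) := hcont.tendsto.mono_left nhdsWithin_le_nhds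
    have h2 : Tendsto g (𝓝[≠] 0) (𝓝 k) := by
      refine (tendsto_const_nhds (x := k)).congr' ?_
      filter_upwards [self_mem_nhdsWithin] with z hz
      have hz' : z ≠ 0 := hz
      simp [hg, hz']
    have h3 := tendsto_nhds_unique h1 h2
    simpa [hg] using h3
  have hgk : g = fun _ => k := by
    funext z
    by_cases hz : z = 0
    · simp [hg, hz, h0k]
    · simp [hg, hz]
  rw [hgk] at hgp
  have h3 := hgp.eq_formalMultilinearSeries (hasFPowerSeriesAt_const (𝕜 := ℂ) (c := k) (e := 0))
  have h4 : p.coeff m = 0 := by
    rw [h3]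
    unfold FormalMultilinearSeries.coeff
    rw [constFormalMultilinearSeries_apply_of_nonzero hm]
    rfl
  rw [← hpc m, h4]

/-- The sum of the powers of the `l`-th roots of unity. -/
private lemma root_sum (l : ℕ) (hl : 0 < l) (n : ℕ) :
    ∑ j ∈ Finset.range l, Complex.exp (2 * Real.pi * Complex.I * n * j / l) =
      if l ∣ n then (l : ℂ) else 0 := by
  have hl0 : (l : ℂ) ≠ 0 := by exact_mod_cast hl.ne'
  set w : ℂ := Complex.exp (2 * Real.pi * Complex.I * n / l) with hw
  have h1 : ∀ j : ℕ, Complex.exp (2 * Real.pi * Complex.I * n * j / l) = w ^ j := by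
    intro j
    rw [hw, ← Complex.exp_nat_mul]
    congr 1
    ring
  simp only [h1]
  split_ifs with hdvd
  · obtain ⟨t, rfl⟩ := hdvd
    have hw1 : w = 1 := by
      rw [hw, Complex.exp_eq_one_iff]
      refine ⟨t, ?_⟩
      push_cast
      field_simp
    rw [hw1]
    simp
  · have hw1 : w ≠ 1 := by
      intro h
      rw [hw, Complex.exp_eq_one_iff] at h
      obtain ⟨t, ht⟩ := h
      apply hdvd
      have hpi : (2 * Real.pi * Complex.I : ℂ) ≠ 0 := Complex.two_pi_I_ne_zero
      have h2 : (n : ℂ) = t * l := by
        field_simp at ht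
        have h3 : (2 * Real.pi * Complex.I : ℂ) * n = (2 * Real.pi * Complex.I) * (t * l) := by
          linear_combination (2 * Real.pi * Complex.I : ℂ) * ht
        exact mul_left_cancel₀ hpi h3
      have h3 : (n : ℤ) = t * l := by exact_mod_cast h2
      exact Int.natCast_dvd_natCast.mp ⟨t, by rw [h3]; ring⟩
    have hwl : w ^ l = 1 := by
      rw [hw, ← Complex.exp_nat_mul, Complex.exp_eq_one_iff]
      refine ⟨n, ?_⟩
      push_cast
      field_simp
    rw [geom_sum_eq hw1, hwl, sub_self, zero_div]

/-- A series over the multiples of `l`, reindexed. -/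
private lemma hasSum_mult (l : ℕ) (hl : 0 < l) (a : ℕ → ℂ) (s : ℂ) :
    HasSum (fun m : ℕ => if l ∣ m then a (m / l) else 0) s ↔ HasSum a s := by
  have hinj : Function.Injective (fun m : ℕ => l * m) := by
    intro x y hxy
    exact Nat.eq_of_mul_eq_mul_left hl hxy
  rw [← hinj.hasSum_iff (f := fun m : ℕ => if l ∣ m then a (m / l) else 0)]
  · have h1 : ((fun m : ℕ => if l ∣ m then a (m / l) else 0) ∘ fun m : ℕ => l * m) = a := by
      funext m
      simp only [Function.comp_apply, dvd_mul_right, if_true]
      rw [Nat.mul_div_cancel_left m hl]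
    rw [h1]
  · intro m hm
    have h1 : ¬ l ∣ m := by
      rintro ⟨t, rfl⟩
      exact hm ⟨t, rfl⟩
    simp only [h1, if_false]

theorem hA2c (h1 : StA1) : StA2c := by
  intro N hN f l lam k hl H
  have hl0 : (l : ℂ) ≠ 0 := by exact_mod_cast hl.ne'
  have hlR : (0 : ℝ) < l := by exact_mod_cast hl
  have hfc0 : fc f 0 = 0 := by
    refine CuspFormClass.qExpansion_coeff_zero f one_pos ?_
    rw [CongruenceSubgroup.strictPeriods_Gamma0]
    exact AddSubgroup.mem_zmultiples 1
  set u : ℕ → ℂ := fun m => fc f m / m with hu
  have hFp : ∀ z : ℂ, 0 < z.im →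
      HasSum (fun m : ℕ => u m * Complex.exp (2 * Real.pi * Complex.I * m * z)) (Fp f z) := by
    intro z hz
    exact (h1 N hN f z hz).1.hasSum
  -- the coefficients of the difference
  set c : ℕ → ℂ := fun m => (if l ∣ m then u (m / l) else 0) + l * u (l * m) - lam * u m with hc
  have hser : ∀ q : ℂ, q ≠ 0 → ‖q‖ < 1 → HasSum (fun m : ℕ => c m * q ^ m) k := by
    intro q hq0 hq1
    set z : ℂ := Complex.log q / (2 * Real.pi * Complex.I) with hz
    have hzq : Complex.exp (2 * Real.pi * Complex.I * z) = q := by
      rw [hz, mul_div_cancel₀ _ Complex.two_pi_I_ne_zero, Complex.exp_log hq0]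
    have hzim : 0 < z.im := by
      by_contra hcon
      push Not at hcon
      have h2 : ‖q‖ = Real.exp (-(2 * Real.pi * z.im)) := by
        rw [← hzq, Complex.norm_exp]
        congr 1
        simp [Complex.mul_re, Complex.mul_im]
      have h3 : (1 : ℝ) ≤ Real.exp (-(2 * Real.pi * z.im)) := by
        apply Real.one_le_exp
        have := Real.pi_pos
        nlinarith [mul_nonneg this.le (neg_nonneg.mpr hcon)]
      linarith
    have hexp : ∀ m : ℕ, Complex.exp (2 * Real.pi * Complex.I * m * z) = q ^ m := by
      intro m
      rw [← hzq, ← Complex.exp_nat_mul]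
      congr 1
      ring
    -- first term
    have hA : HasSum (fun m : ℕ => (if l ∣ m then u (m / l) else 0) * q ^ m)
        (Fp f (l * z)) := by
      have h2 := hFp (l * z) (by
        rw [Complex.mul_im]
        simp
        positivity)
      have h3 := (hasSum_mult l hl _ _).mpr h2
      have h4 : (fun m : ℕ => (if l ∣ m then u (m / l) else 0) * q ^ m) = fun m : ℕ =>
          if l ∣ m then u (m / l) *
            Complex.exp (2 * Real.pi * Complex.I * (m / l : ℕ) * (l * z)) else 0 := by
        funext m
        split_ifs with hd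
        · obtain ⟨t, rfl⟩ := hd
          rw [Nat.mul_div_cancel_left t hl, ← hexp]
          congr 2
          push_cast
          ring
        · rw [zero_mul]
      rw [h4]
      exact h3
    -- second term
    have hB : HasSum (fun m : ℕ => (l : ℂ) * u (l * m) * q ^ m)
        (∑ j ∈ Finset.range l, Fp f ((z + j) / l)) := by
      have h2 : ∀ j ∈ Finset.range l, HasSum (fun n : ℕ => u n *
          Complex.exp (2 * Real.pi * Complex.I * n * ((z + j) / l))) (Fp f ((z + j) / l)) := by
        intro j _
        apply hFp
        have h5 : (z + j) / l = ((l : ℝ)⁻¹ : ℝ) * (z + j) := by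
          push_cast
          field_simp
        rw [h5, Complex.im_ofReal_mul, Complex.add_im, Complex.natCast_im, add_zero]
        exact mul_pos (inv_pos.mpr hlR) hzim
      have h3 := hasSum_sum h2
      have h4 : (fun n : ℕ => ∑ j ∈ Finset.range l, u n *
          Complex.exp (2 * Real.pi * Complex.I * n * ((z + j) / l))) =
          fun n : ℕ => if l ∣ n then (l : ℂ) * u (l * (n / l)) * q ^ (n / l) else 0 := by
        funext n
        have h5 : ∀ j : ℕ, Complex.exp (2 * Real.pi * Complex.I * n * ((z + j) / l)) =
            Complex.exp (2 * Real.pi * Complex.I * n * z / l) *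
              Complex.exp (2 * Real.pi * Complex.I * n * j / l) := by
          intro j
          rw [← Complex.exp_add]
          congr 1
          ring
        simp only [h5]
        rw [← Finset.mul_sum, ← Finset.mul_sum, root_sum l hl n]
        split_ifs with hd
        · obtain ⟨t, rfl⟩ := hd
          rw [Nat.mul_div_cancel_left t hl, ← hexp]
          have h6 : (2 * Real.pi * Complex.I * ((l * t : ℕ) : ℂ) * z / l) =
              2 * Real.pi * Complex.I * t * z := by
            push_cast
            field_simp
          rw [h6]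
          ring
        · rw [mul_zero, mul_zero]
      rw [h4] at h3
      exact (hasSum_mult l hl (fun m : ℕ => (l : ℂ) * u (l * m) * q ^ m) _).mp h3
    have hC : HasSum (fun m : ℕ => lam * u m * q ^ m) (lam * Fp f z) := by
      have h2 := (hFp z hzim).mul_left lam
      simp only [hexp] at h2
      have h3 : (fun m : ℕ => lam * u m * q ^ m) = fun m : ℕ => lam * (u m * q ^ m) := by
        funext m
        ring
      rw [h3]
      exact h2
    have hD := (hA.add hB).sub hC
    have h5 : (Fp f (l * z) + ∑ j ∈ Finset.range l, Fp f ((z + j) / l)) - lam * Fp f z = k := by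
      rw [H z hzim]
      ring
    rw [h5] at hD
    have h6 : (fun m : ℕ => c m * q ^ m) = fun m : ℕ =>
        (if l ∣ m then u (m / l) else 0) * q ^ m + (l : ℂ) * u (l * m) * q ^ m -
          lam * u m * q ^ m := by
      funext m
      rw [hc]
      ring
    rw [h6]
    exact hD
  have hcz := coeff_zero_of_const c k hser
  intro m
  rcases Nat.eq_zero_or_pos m with hm | hm
  · subst hm
    simp [hfc0]
  · have hmC : (m : ℂ) ≠ 0 := by exact_mod_cast hm.ne'
    have h2 := hcz m hm.ne'
    simp only [hc, hu] at h2
    split_ifs at h2 ⊢ with hd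
    · obtain ⟨t, rfl⟩ := hd
      have ht : (t : ℂ) ≠ 0 := by
        intro h
        apply hmC
        push_cast
        rw [h, mul_zero]
      rw [Nat.mul_div_cancel_left t hl] at h2 ⊢
      push_cast at h2
      field_simp at h2
      linear_combination h2
    · push_cast at h2
      field_simp at h2
      linear_combination h2

end Pool.Agent.Helper71.CV
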