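import Pool.Agent.Helper14.CV.StD

/-!
# Project CV, module Rel: the relation between the two plane functions of a symbol
-/

set_option autoImplicit false

open Pool.Agent.Helper14.CV

namespace Pool.Agent.Helper71.CV

/-- `1 + 4 w` is a unit modulo a power of two. -/
private lemma unit_four (s : ℕ) (w : ZMod (2 ^ s)) :
    (1 + 4 * w) * (1 + 4 * w)⁻¹ = 1 := by
  have hN : NeZero (2 ^ s) := ⟨pow_ne_zero _ two_ne_zero⟩
  have h1 : IsNilpotent (4 * w) := by
    refine ⟨s, ?_⟩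
    have h2 : ((2 ^ s : ℕ) : ZMod (2 ^ s)) = 0 := ZMod.natCast_self _
    push_cast at h2
    have h4 : (4 : ZMod (2 ^ s)) = 2 * 2 := by norm_num
    rw [mul_pow, h4, mul_pow, h2]
    ring
  have h2 : IsUnit (1 + 4 * w) := h1.isUnit_one_add
  exact ZMod.mul_inv_of_unit _ h2

theorem hRel (hPlA : StPlA) (hEdg : StEdg) : StRel := by
  intro R _ r s G hG x y
  obtain ⟨hdet, hb, hc⟩ := hPlA 1 r s x y
  set a : ℤ := 1 with ha
  set b : ℤ := (x.val : ℤ) with hbd
  set c : ℤ := rY 1 x y with hcd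
  set d : ℤ := 1 + 2 ^ (1 + 1) * b * c with hdd
  have hdet' : a * d - 4 * b * c = 1 := by
    have h : (2 : ℤ) ^ (1 + 1) = 4 := by norm_num
    rw [h] at hdet
    exact hdet
  have hy := unit_four s y
  have hx := unit_four r (-(x + 1))
  set iy : ZMod (2 ^ s) := (1 + 4 * y)⁻¹ with hiy
  set ix : ZMod (2 ^ r) := (1 + 4 * (-(x + 1)))⁻¹ with hix
  have hn : ∀ p q p' q' : ℤ, p * q' - q * p' = 1 → (p ≠ 0 ∨ p' ≠ 0) ∧ (q ≠ 0 ∨ q' ≠ 0) := by
    intro p q p' q' h
    constructor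
    · by_contra hcon
      push Not at hcon
      rw [hcon.1, hcon.2] at h
      simp at h
    · by_contra hcon
      push Not at hcon
      rw [hcon.1, hcon.2] at h
      simp at h
  -- coordinates
  have P0 : Pl 1 a b c d x y := ⟨hdet, hb, hc⟩
  have P1 : Pl 1 a (b + a) c (d + 4 * c) (x + 1) (y * iy) := by
    refine ⟨?_, ?_, ?_⟩
    · have h : (2 : ℤ) ^ (1 + 1) = 4 := by norm_num
      rw [h]
      linear_combination hdet'
    · push_cast
      rw [hb]
      ring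
    · push_cast
      linear_combination (1 + 4 * (y * iy) - 4 * (y * iy)) * hc - y * (d : ZMod (2 ^ s)) * hy -
        4 * y * iy * hc
  have P2 : Pl 1 (a - 4 * (b + a)) (b + a) (c - (d + 4 * c)) (d + 4 * c)
      ((x + 1) * ix) (y * iy - 1) := by
    refine ⟨?_, ?_, ?_⟩
    · have h : (2 : ℤ) ^ (1 + 1) = 4 := by norm_num
      rw [h]
      linear_combination hdet'
    · have h1 := P1.2.1
      push_cast at h1 ⊢
      linear_combination (1 + 4 * (x + 1) * ix) * h1 - (x + 1) * (a : ZMod (2 ^ r)) * hx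
    · have h1 := P1.2.2
      push_cast at h1 ⊢
      linear_combination h1
  have e1 := hEdg R _ 1 r s G hG 1 0 0 1 (by simp) (by simp) x y a b c d P0
  have e2 := hEdg R _ 1 r s G hG 1 0 0 1 (by simp) (by simp) _ _ _ _ _ _ P1
  have e3 := hEdg R _ 1 r s G hG 1 1 0 1 (by simp) (by simp) x y a b c d P0
  have e4 := hEdg R _ 1 r s G hG 1 1 0 1 (by simp) (by simp) _ _ _ _ _ _ P2
  have s1 : tA 1 (fun (x : ZMod (2 ^ r)) (y : ZMod (2 ^ s)) => edgeF 1 1 0 0 1 G x y) x y =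
      edgeF 1 1 0 0 1 G (x + 1) (y * iy) := by
    unfold tA
    simp only [Int.cast_one, mul_one]
    rfl
  have s2 : tA 1 (tB (-1) (fun (x : ZMod (2 ^ r)) (y : ZMod (2 ^ s)) => edgeF 1 1 1 0 1 G x y))
      x y = edgeF 1 1 1 0 1 G ((x + 1) * ix) (y * iy - 1) := by
    unfold tA tB
    have h1 : (1 + 4 * ((-1 : ℤ) : ZMod (2 ^ r)) * (x + ((1 : ℤ) : ZMod (2 ^ r)))) =
        1 + 4 * (-(x + 1)) := by
      push_cast
      ring
    have h2 : (1 + 4 * ((1 : ℤ) : ZMod (2 ^ s)) * y) = 1 + 4 * y := by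
      push_cast
      ring
    simp only [h1, h2]
    rw [← hix, ← hiy]
    congr 1
    · push_cast
      ring
    · push_cast
      ring
  have hneg : G (-(a + 2 * b)) (-(2 * c + d)) = G (a + 2 * b) (2 * c + d) := by
    have h1 := hG.1 (-1) (a + 2 * b) (2 * c + d) (by norm_num)
      (hn _ (2 * b) _ d (by linear_combination hdet')).1
    rw [← h1]
    congr 1 <;> ring
  have t1 : (a - 4 * (b + a)) * 1 + 2 ^ 1 * (b + a) * 1 = -(a + 2 * b) := by ring
  have t2 : 2 * (c - (d + 4 * c)) * 1 + (d + 4 * c) * 1 = -(2 * c + d) := by ring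
  have t3 : (a - 4 * (b + a)) * 0 + 2 ^ 1 * (b + a) * 1 = a * 0 + 2 ^ 1 * (b + a) * 1 := by ring
  have t4 : 2 * (c - (d + 4 * c)) * 0 + (d + 4 * c) * 1 = 2 * c * 0 + (d + 4 * c) * 1 := by ring
  have t5 : a * 1 + 2 ^ 1 * b * 1 = a + 2 * b := by ring
  have t6 : 2 * c * 1 + d * 1 = 2 * c + d := by ring
  have t7 : a * 1 + 2 ^ 1 * (b + a) * 0 = a * 1 + 2 ^ 1 * b * 0 := by ring
  have t8 : 2 * c * 1 + (d + 4 * c) * 0 = 2 * c * 1 + d * 0 := by ring
  rw [t1, t2, t3, t4, hneg] at e4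
  rw [t5, t6] at e3
  rw [t7, t8] at e2
  rw [s1, s2]
  change edgeF 1 1 0 0 1 G (x + 1) (y * iy) - edgeF 1 1 0 0 1 G x y =
    edgeF 1 1 1 0 1 G ((x + 1) * ix) (y * iy - 1) - edgeF 1 1 1 0 1 G x y
  rw [e1, e2, e3, e4]
  abel

end Pool.Agent.Helper71.CV
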