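import Pool.Agent.Helper14.CV.StB

/-!
# Project CV, module B3a: decomposition of a symbol of level `2^n`
-/

set_option autoImplicit false

open Pool.Agent.Helper14.CV

namespace Pool.Agent.Helper71.CV

private lemma half_add {X Y X' Y' : ℤ → ℤ → ℂ} (h : EqC X X') (h' : EqC Y Y') :
    EqC ((1 / 2 : ℂ) • (X + Y)) ((1 / 2 : ℂ) • (X' + Y')) := (h.add h').smul _

private lemma half_sub {X Y X' Y' : ℤ → ℤ → ℂ} (h : EqC X X') (h' : EqC Y Y') :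
    EqC ((1 / 2 : ℂ) • (X - Y)) ((1 / 2 : ℂ) • (X' - Y')) := (h.sub h').smul _

/-- Averages over a pair of operators. -/
private lemma avg_add {a b c d : ℤ} {X Y X' Y' : ℤ → ℤ → ℂ} (h : EqC (act a b c d X) X')
    (h' : EqC (act a b c d Y) Y') :
    EqC (act a b c d ((1 / 2 : ℂ) • (X + Y))) ((1 / 2 : ℂ) • (X' + Y')) := by
  rw [act_smul, act_add]
  exact half_add h h'

private lemma avg_sub {a b c d : ℤ} {X Y X' Y' : ℤ → ℤ → ℂ} (h : EqC (act a b c d X) X')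
    (h' : EqC (act a b c d Y) Y') :
    EqC (act a b c d ((1 / 2 : ℂ) • (X - Y))) ((1 / 2 : ℂ) • (X' - Y')) := by
  rw [act_smul, act_sub]
  exact half_sub h h'

private lemma swap_add {a b c d : ℤ} {X Y X' Y' : ℤ → ℤ → ℂ} (h : EqC (act a b c d X) Y')
    (h' : EqC (act a b c d Y) X') :
    EqC (act a b c d ((1 / 2 : ℂ) • (X + Y))) ((1 / 2 : ℂ) • (X' + Y')) := by
  have h2 := avg_add h h'
  have e : (1 / 2 : ℂ) • (Y' + X') = (1 / 2 : ℂ) • (X' + Y') := by rw [add_comm]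
  rw [e] at h2
  exact h2

private lemma swap_sub {a b c d : ℤ} {X Y X' Y' : ℤ → ℤ → ℂ} (h : EqC (act a b c d X) Y')
    (h' : EqC (act a b c d Y) X') :
    EqC (act a b c d ((1 / 2 : ℂ) • (X - Y))) (-((1 / 2 : ℂ) • (X' - Y'))) := by
  have h2 := avg_sub h h'
  have e : (1 / 2 : ℂ) • (Y' - X') = -((1 / 2 : ℂ) • (X' - Y')) := by
    rw [← smul_neg, neg_sub]
  rw [e] at h2
  exact h2

private lemma neg_add' {a b c d : ℤ} {X Y X' Y' : ℤ → ℤ → ℂ} (h : EqC (act a b c d X) (-X'))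
    (h' : EqC (act a b c d Y) (-Y')) :
    EqC (act a b c d ((1 / 2 : ℂ) • (X + Y))) (-((1 / 2 : ℂ) • (X' + Y'))) := by
  have h2 := avg_add h h'
  have e : (1 / 2 : ℂ) • (-X' + -Y') = -((1 / 2 : ℂ) • (X' + Y')) := by
    rw [← smul_neg, neg_add]
  rw [e] at h2
  exact h2

private lemma neg_sub' {a b c d : ℤ} {X Y X' Y' : ℤ → ℤ → ℂ} (h : EqC (act a b c d X) (-X'))
    (h' : EqC (act a b c d Y) (-Y')) :
    EqC (act a b c d ((1 / 2 : ℂ) • (X - Y))) (-((1 / 2 : ℂ) • (X' - Y'))) := by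
  have h2 := avg_sub h h'
  have e : (1 / 2 : ℂ) • (-X' - -Y') = -((1 / 2 : ℂ) • (X' - Y')) := by
    rw [← smul_neg]
    congr 1
    abel
  rw [e] at h2
  exact h2

theorem hB3a (hNrm : StNrm) (hCom : StCom) (hLvl : StLvl) (hEv : StEv) : StB3a := by
  intro n G hn hG
  have hn2 : 2 ≤ n := by omega
  have hpow1 : (2 : ℤ) ^ n ≠ 0 := pow_ne_zero _ two_ne_zero
  have dt : (2 : ℤ) * 2 - 1 * 0 ≠ 0 := by norm_num
  have ds : (1 : ℤ) * 1 - 0 * 2 ^ (n - 1) ≠ 0 := by norm_num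
  have dW : (0 : ℤ) * 0 - (-1) * 2 ^ n ≠ 0 := by
    intro h
    apply hpow1
    linarith
  have dx : (-1 : ℤ) * 1 - 0 * 0 ≠ 0 := by norm_num
  -- the symbols
  set A : ℤ → ℤ → ℂ := (1 / 2 : ℂ) • (G + act 2 1 0 2 G) with hA
  set B : ℤ → ℤ → ℂ := (1 / 2 : ℂ) • (G - act 2 1 0 2 G) with hB
  set C : ℤ → ℤ → ℂ := (1 / 2 : ℂ) • (B + act 1 0 (2 ^ (n - 1)) 1 B) with hC
  set E : ℤ → ℤ → ℂ := (1 / 2 : ℂ) • (B - act 1 0 (2 ^ (n - 1)) 1 B) with hE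
  set F : ℤ → ℤ → ℂ := (1 / 2 : ℂ) • (E - act 0 (-1) (2 ^ n) 0 E) with hF
  set G1 : ℤ → ℤ → ℂ := (1 / 2 : ℂ) • (F + act (-1) 0 0 1 F) with hG1
  have subS : ∀ X Y : ℤ → ℤ → ℂ, Sym 0 n X → Sym 0 n Y → Sym 0 n (X - Y) := by
    intro X Y hX hY
    rw [sub_eq_add_neg]
    exact hX.add hY.neg
  have sA : Sym 0 n A := (hG.add (hNrm n G hn2 hG).2.1).smul _
  have sB : Sym 0 n B := (subS _ _ hG (hNrm n G hn2 hG).2.1).smul _
  have sC : Sym 0 n C := (sB.add (hNrm n B hn2 sB).2.2.1).smul _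
  have sE : Sym 0 n E := (subS _ _ sB (hNrm n B hn2 sB).2.2.1).smul _
  have sF : Sym 0 n F := (subS _ _ sE (hNrm n E hn2 sE).1).smul _
  have sG1 : Sym 0 n G1 := (sF.add (hNrm n F hn2 sF).2.2.2).smul _
  -- relations
  have tA : EqC (act 2 1 0 2 A) A := by
    exact swap_add (EqC.refl (act 2 1 0 2 G)) (hCom n G hn hG).1
  have tB : EqC (act 2 1 0 2 B) (-B) := by
    exact swap_sub (EqC.refl (act 2 1 0 2 G)) (hCom n G hn hG).1
  have sCC : EqC (act 1 0 (2 ^ (n - 1)) 1 C) C := by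
    exact swap_add (EqC.refl (act 1 0 (2 ^ (n - 1)) 1 B)) (hCom n B hn sB).2.1
  have sEE : EqC (act 1 0 (2 ^ (n - 1)) 1 E) (-E) := by
    exact swap_sub (EqC.refl (act 1 0 (2 ^ (n - 1)) 1 B)) (hCom n B hn sB).2.1
  have tE : EqC (act 2 1 0 2 E) (-E) := by
    have h1 : EqC (act 2 1 0 2 (act 1 0 (2 ^ (n - 1)) 1 B)) (-(act 1 0 (2 ^ (n - 1)) 1 B)) := by
      refine (hCom n B hn sB).2.2.2.2.1.trans ?_
      have := tB.act ds
      rw [act_neg] at this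
      exact this
    exact neg_sub' tB h1
  have WF : EqC (act 0 (-1) (2 ^ n) 0 F) (-F) := by
    exact swap_sub (EqC.refl (act 0 (-1) (2 ^ n) 0 E)) (hCom n E hn sE).2.2.1
  have tF : EqC (act 2 1 0 2 F) (-F) := by
    have h1 : EqC (act 2 1 0 2 (act 0 (-1) (2 ^ n) 0 E)) (-(act 0 (-1) (2 ^ n) 0 E)) := by
      refine (hCom n E hn sE).2.2.2.2.2.1.trans ?_
      have := sEE.act dW
      rw [act_neg] at this
      exact this
    exact neg_sub' tE h1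
  have sFF : EqC (act 1 0 (2 ^ (n - 1)) 1 F) (-F) := by
    have h1 : EqC (act 1 0 (2 ^ (n - 1)) 1 (act 0 (-1) (2 ^ n) 0 E))
        (-(act 0 (-1) (2 ^ n) 0 E)) := by
      refine (hCom n E hn sE).2.2.2.2.2.2.1.trans ?_
      have := tE.act dW
      rw [act_neg] at this
      exact this
    exact neg_sub' sEE h1
  have xG1 : EqC (act (-1) 0 0 1 G1) G1 := by
    exact swap_add (EqC.refl (act (-1) 0 0 1 F)) (hCom n F hn sF).2.2.2.1
  have tG1 : EqC (act 2 1 0 2 G1) (-G1) := by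
    have h1 : EqC (act 2 1 0 2 (act (-1) 0 0 1 F)) (-(act (-1) 0 0 1 F)) := by
      refine (hCom n F hn sF).2.2.2.2.2.2.2.1.trans ?_
      have := tF.act dx
      rw [act_neg] at this
      exact this
    exact neg_add' tF h1
  have sG1' : EqC (act 1 0 (2 ^ (n - 1)) 1 G1) (-G1) := by
    have h1 : EqC (act 1 0 (2 ^ (n - 1)) 1 (act (-1) 0 0 1 F)) (-(act (-1) 0 0 1 F)) := by
      refine (hCom n F hn sF).2.2.2.2.2.2.2.2.1.trans ?_
      have := sFF.act dx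
      rw [act_neg] at this
      exact this
    exact neg_add' sFF h1
  have WG1 : EqC (act 0 (-1) (2 ^ n) 0 G1) (-G1) := by
    have h1 : EqC (act 0 (-1) (2 ^ n) 0 (act (-1) 0 0 1 F)) (-(act (-1) 0 0 1 F)) := by
      refine (hCom n F hn sF).2.2.2.2.2.2.2.2.2.trans ?_
      have := WF.act dx
      rw [act_neg] at this
      exact this
    exact neg_add' WF h1
  have lA : Sym 0 (n - 1) (act 0 (-1) (2 ^ n) 0 A) := (hLvl n A hn2 sA).2 tA
  have lC : Sym 0 (n - 1) C := (hLvl n C hn2 sC).1 sCC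
  refine ⟨C + -(act 0 (-1) (2 ^ n) 0 A), G1, lC.add lA.neg,
    ⟨sG1, tG1, sG1', WG1, xG1⟩, fun i j => ?_⟩
  have evsub : ∀ X Y : ℤ → ℤ → ℂ, ev 1 (X - Y) i j = ev 1 X i j - ev 1 Y i j := by
    intro X Y
    rw [sub_eq_add_neg, ev_add, ev_neg]
    ring
  have eA := (hEv n A hn2 sA i j).1
  have eE := (hEv n E hn2 sE i j).1
  have eF := (hEv n F hn2 sF i j).2
  have e1 : ev 1 A i j = (1 / 2 : ℂ) * (ev 1 G i j + ev 1 (act 2 1 0 2 G) i j) := by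
    rw [hA, ev_smul, ev_add, smul_eq_mul]
  have e2 : ev 1 B i j = (1 / 2 : ℂ) * (ev 1 G i j - ev 1 (act 2 1 0 2 G) i j) := by
    rw [hB, ev_smul, evsub, smul_eq_mul]
  have e3 : ev 1 C i j = (1 / 2 : ℂ) * (ev 1 B i j + ev 1 (act 1 0 (2 ^ (n - 1)) 1 B) i j) := by
    rw [hC, ev_smul, ev_add, smul_eq_mul]
  have e4 : ev 1 E i j = (1 / 2 : ℂ) * (ev 1 B i j - ev 1 (act 1 0 (2 ^ (n - 1)) 1 B) i j) := by
    rw [hE, ev_smul, evsub, smul_eq_mul]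
  have e5 : ev 1 F i j = (1 / 2 : ℂ) * (ev 1 E i j - ev 1 (act 0 (-1) (2 ^ n) 0 E) i j) := by
    rw [hF, ev_smul, evsub, smul_eq_mul]
  have e6 : ev 1 G1 i j = (1 / 2 : ℂ) * (ev 1 F i j + ev 1 (act (-1) 0 0 1 F) i j) := by
    rw [hG1, ev_smul, ev_add, smul_eq_mul]
  rw [ev_add, ev_neg, eA]
  rw [eF] at e6
  rw [eE] at e5
  linear_combination (-1 : ℂ) * e1 - e2 - e3 - e4 - e5 - e6
end Pool.Agent.Helper71.CV
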