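import Pool.Agent.Helper14.CV.StC

/-!
# Project CV, module DimO: the dimension of `antiO k`

The projection onto `antiO k` is an average of sixteen signed substitutions; its trace counts
fixed points.
-/

set_option autoImplicit false

open Pool.Agent.Helper14.CV

namespace Pool.Agent.Helper71.CV

/-- The dimension of the image of an average of signed substitutions which is a projection. -/
private lemma finrank_avg {ι J : Type} [Fintype ι] [DecidableEq ι] [Fintype J]
    (σ : J → ι → ι) (s : J → ℂ) (c : ℂ) (V : Submodule ℂ (ι → ℂ))
    (h1 : ∀ F : ι → ℂ, (fun i => c * ∑ j, s j * F (σ j i)) ∈ V)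
    (h2 : ∀ F ∈ V, ∀ i, c * ∑ j, s j * F (σ j i) = F i) :
    (Module.finrank ℂ V : ℂ) =
      c * ∑ j, s j * ((Finset.univ.filter fun i : ι => σ j i = i).card : ℂ) := by
  let P : (ι → ℂ) →ₗ[ℂ] (ι → ℂ) :=
    { toFun := fun F i => c * ∑ j, s j * F (σ j i)
      map_add' := by
        intro F G
        funext i
        simp only [Pi.add_apply, mul_add, Finset.sum_add_distrib]
      map_smul' := by
        intro x F
        funext i
        simp only [Pi.smul_apply, smul_eq_mul, RingHom.id_apply, Finset.mul_sum]
        refine Finset.sum_congr rfl fun j _ => ?_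
        ring }
  have hP : LinearMap.IsProj V P := by
    refine ⟨fun F => h1 F, fun F hF => ?_⟩
    funext i
    exact h2 F hF i
  rw [← hP.trace, LinearMap.trace_eq_matrix_trace ℂ (Pi.basisFun ℂ ι)]
  unfold Matrix.trace
  have hd : ∀ i : ι, (LinearMap.toMatrix (Pi.basisFun ℂ ι) (Pi.basisFun ℂ ι) P).diag i =
      c * ∑ j, s j * (if σ j i = i then (1 : ℂ) else 0) := by
    intro i
    rw [Matrix.diag_apply, LinearMap.toMatrix_apply]
    simp only [Pi.basisFun_repr, Pi.basisFun_apply]
    change c * ∑ j, s j * (Pi.single i (1 : ℂ) : ι → ℂ) (σ j i) = _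
    congr 1
    refine Finset.sum_congr rfl fun j _ => ?_
    rw [Pi.single_apply]
  rw [Finset.sum_congr rfl fun i _ => hd i, ← Finset.mul_sum, Finset.sum_comm]
  congr 1
  refine Finset.sum_congr rfl fun j _ => ?_
  rw [← Finset.mul_sum, Finset.sum_boole]

private lemma card_graph {Z : Type} [Fintype Z] [DecidableEq Z] (f : Z × Z → Z × Z) (g : Z → Z)
    (h : ∀ x y, f (x, y) = (x, y) ↔ x = g y) :
    (Finset.univ.filter fun p : Z × Z => f p = p).card = Fintype.card Z := by
  have h1 : (Finset.univ.filter fun p : Z × Z => f p = p) =
      Finset.univ.image fun y : Z => (g y, y) := by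
    ext ⟨x, y⟩
    simp only [Finset.mem_filter, Finset.mem_univ, true_and, Finset.mem_image, Prod.mk.injEq, h]
    constructor
    · intro hx
      exact ⟨y, hx.symm, rfl⟩
    · rintro ⟨z, hz, rfl⟩
      exact hz.symm
  rw [h1, Finset.card_image_of_injective, Finset.card_univ]
  intro y y' hy
  exact (Prod.mk.inj hy).2

private lemma card_none {Z : Type} [Fintype Z] [DecidableEq Z] (f : Z × Z → Z × Z)
    (h : ∀ x y, f (x, y) ≠ (x, y)) :
    (Finset.univ.filter fun p : Z × Z => f p = p).card = 0 := by
  rw [Finset.card_eq_zero, Finset.filter_eq_empty_iff]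
  rintro ⟨x, y⟩ _
  exact h x y

private lemma card_prod {Z : Type} [Fintype Z] [DecidableEq Z] (f : Z × Z → Z × Z)
    (A B : Finset Z) (h : ∀ x y, f (x, y) = (x, y) ↔ x ∈ A ∧ y ∈ B) :
    (Finset.univ.filter fun p : Z × Z => f p = p).card = A.card * B.card := by
  rw [← Finset.card_product]
  congr 1
  ext ⟨x, y⟩
  simp only [Finset.mem_filter, Finset.mem_univ, true_and, Finset.mem_product, h]

/-- Facts on `ZMod (2 Q)` used below, for a type `Z` with an element `q`. -/
private lemma dim_aux {Z : Type} [AddCommGroup Z] [Fintype Z] [DecidableEq Z] (q t : Z)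
    (hq : q + q = 0) (hq0 : q ≠ 0) (ht : t + t = q) (V : Submodule ℂ (Z → Z → ℂ))
    (hV : ∀ F, F ∈ V ↔ ∀ x y, F (x + q) y = -F x y ∧ F x (y + q) = -F x y ∧
      F y x = F x y ∧ F (-x) (-y) = F x y) :
    (16 : ℂ) * Module.finrank ℂ V = (Fintype.card Z : ℂ) ^ 2 + 4 * Fintype.card Z := by
  have hnq : -q = q := by rw [neg_eq_iff_add_eq_zero]; exact hq
  have haq : ∀ x : Z, x + q + q = x := fun x => by rw [add_assoc, hq, add_zero]
  have hna : ∀ x : Z, -(x + q) = -x + q := fun x => by rw [neg_add, hnq]
  have hne : ∀ x : Z, x + q ≠ x := fun x h => hq0 (by simpa using h)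
  let σ : Bool × Bool × Bool × Bool → Z × Z → Z × Z := fun j p =>
    match j with
    | (false, false, false, false) => (p.1, p.2)
    | (true, false, false, false) => (p.1 + q, p.2)
    | (false, true, false, false) => (p.1, p.2 + q)
    | (true, true, false, false) => (p.1 + q, p.2 + q)
    | (false, false, true, false) => (p.2, p.1)
    | (true, false, true, false) => (p.2 + q, p.1)
    | (false, true, true, false) => (p.2, p.1 + q)
    | (true, true, true, false) => (p.2 + q, p.1 + q)
    | (false, false, false, true) => (-p.1, -p.2)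
    | (true, false, false, true) => (-p.1 + q, -p.2)
    | (false, true, false, true) => (-p.1, -p.2 + q)
    | (true, true, false, true) => (-p.1 + q, -p.2 + q)
    | (false, false, true, true) => (-p.2, -p.1)
    | (true, false, true, true) => (-p.2 + q, -p.1)
    | (false, true, true, true) => (-p.2, -p.1 + q)
    | (true, true, true, true) => (-p.2 + q, -p.1 + q)
  let s : Bool × Bool × Bool × Bool → ℂ := fun j =>
    (if j.1 then -1 else 1) * (if j.2.1 then -1 else 1)
  let W : Submodule ℂ (Z × Z → ℂ) := V.comap (LinearEquiv.curry ℂ ℂ Z Z : _ →ₗ[ℂ] _)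
  have hW : ∀ F : Z × Z → ℂ, F ∈ W ↔ ∀ x y, F (x + q, y) = -F (x, y) ∧
      F (x, y + q) = -F (x, y) ∧ F (y, x) = F (x, y) ∧ F (-x, -y) = F (x, y) := by
    intro F
    change (LinearEquiv.curry ℂ ℂ Z Z F) ∈ V ↔ _
    rw [hV]
    rfl
  have hfr : Module.finrank ℂ W = Module.finrank ℂ V := by
    have h1 : V = W.map (LinearEquiv.curry ℂ ℂ Z Z : _ →ₗ[ℂ] _) := by
      rw [Submodule.map_comap_eq_of_surjective (LinearEquiv.surjective _)]
    conv_rhs => rw [h1]
    exact (LinearEquiv.finrank_map_eq _ _).symm
  have hsum : ∀ f : Bool × Bool × Bool × Bool → ℂ, ∑ j, f j =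
      f (false, false, false, false) + f (true, false, false, false) +
      f (false, true, false, false) + f (true, true, false, false) +
      f (false, false, true, false) + f (true, false, true, false) +
      f (false, true, true, false) + f (true, true, true, false) +
      f (false, false, false, true) + f (true, false, false, true) +
      f (false, true, false, true) + f (true, true, false, true) +
      f (false, false, true, true) + f (true, false, true, true) +
      f (false, true, true, true) + f (true, true, true, true) := by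
    intro f
    simp only [Fintype.sum_prod_type, Fintype.sum_bool]
    ring
  have key := finrank_avg σ s (1 / 16) W ?_ ?_
  · rw [hfr, hsum] at key
    set A0 : Finset Z := Finset.univ.filter fun x => -x = x with hA0
    set A1 : Finset Z := Finset.univ.filter fun x => -x + q = x with hA1
    have hA : A1.card = A0.card := by
      have e : A1 = A0.image fun x => x + t := by
        ext x
        simp only [hA0, hA1, Finset.mem_filter, Finset.mem_univ, true_and, Finset.mem_image]
        constructor
        · intro hx
          refine ⟨x - t, ?_, by abel⟩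
          have : -(x - t) = (-x + q) - q + t := by abel
          rw [this, hx, ← ht]
          abel
        · rintro ⟨z, hz, rfl⟩
          rw [neg_add, hz, ← ht]
          abel
      rw [e, Finset.card_image_of_injective]
      intro x y hxy
      exact add_right_cancel hxy
    have c1 : (Finset.univ.filter fun p : Z × Z => σ (false, false, false, false) p = p).card =
        Fintype.card Z * Fintype.card Z := by
      rw [card_prod _ Finset.univ Finset.univ, Finset.card_univ]
      intro x y
      simp [σ]
    have c2 := card_none (σ (true, false, false, false)) (by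
      intro x y h
      exact hne x (Prod.mk.inj h).1)
    have c3 := card_none (σ (false, true, false, false)) (by
      intro x y h
      exact hne y (Prod.mk.inj h).2)
    have c4 := card_none (σ (true, true, false, false)) (by
      intro x y h
      exact hne y (Prod.mk.inj h).2)
    have c5 := card_graph (σ (false, false, true, false)) (fun y => y) (by
      intro x y
      simp only [σ, Prod.mk.injEq]
      exact ⟨fun h => h.2, fun h => ⟨h.symm, h⟩⟩)
    have c6 := card_none (σ (true, false, true, false)) (by
      intro x y h
      obtain ⟨h1, h2⟩ := Prod.mk.inj h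
      exact hne y (h1.trans h2))
    have c7 := card_none (σ (false, true, true, false)) (by
      intro x y h
      obtain ⟨h1, h2⟩ := Prod.mk.inj h
      exact hne x (h2.trans h1))
    have c8 := card_graph (σ (true, true, true, false)) (fun y => y + q) (by
      intro x y
      simp only [σ, Prod.mk.injEq]
      constructor
      · intro h
        exact h.1.symm
      · intro h
        exact ⟨h.symm, by rw [h, haq]⟩)
    have c9 := card_prod (σ (false, false, false, true)) A0 A0 (by
      intro x y
      simp [σ, hA0])
    have c10 := card_prod (σ (true, false, false, true)) A1 A0 (by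
      intro x y
      simp [σ, hA0, hA1])
    have c11 := card_prod (σ (false, true, false, true)) A0 A1 (by
      intro x y
      simp [σ, hA0, hA1])
    have c12 := card_prod (σ (true, true, false, true)) A1 A1 (by
      intro x y
      simp [σ, hA1])
    have c13 := card_graph (σ (false, false, true, true)) (fun y => -y) (by
      intro x y
      simp only [σ, Prod.mk.injEq]
      constructor
      · intro h
        exact h.1.symm
      · intro h
        exact ⟨h.symm, by rw [h, neg_neg]⟩)
    have c14 := card_none (σ (true, false, true, true)) (by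
      intro x y h
      obtain ⟨h1, h2⟩ := Prod.mk.inj h
      apply hne x
      have h3 : -y = x := by rw [← h2, neg_neg]
      rw [h3] at h1
      exact h1)
    have c15 := card_none (σ (false, true, true, true)) (by
      intro x y h
      obtain ⟨h1, h2⟩ := Prod.mk.inj h
      apply hne y
      have h3 : -x = y := by rw [← h1, neg_neg]
      rw [h3] at h2
      exact h2)
    have c16 := card_graph (σ (true, true, true, true)) (fun y => -y + q) (by
      intro x y
      simp only [σ, Prod.mk.injEq]
      constructor
      · intro h
        exact h.1.symm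
      · intro h
        refine ⟨h.symm, ?_⟩
        rw [h, hna, neg_neg, haq])
    rw [c1, c2, c3, c4, c5, c6, c7, c8, c9, c10, c11, c12, c13, c14, c15, c16, hA] at key
    simp only [s] at key
    rw [key]
    simp only [if_true, Bool.false_eq_true, if_false]
    push_cast
    ring
  · intro F
    rw [hW]
    intro x y
    simp only [hsum, σ, s, haq, hna, neg_neg]
    simp only [if_true, Bool.false_eq_true, if_false]
    refine ⟨by ring, by ring, by ring, by ring⟩
  · intro F hF p
    obtain ⟨x, y⟩ := p
    rw [hW] at hF
    simp only [hsum, σ, s]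
    have a1 := fun x y => (hF x y).1
    have a2 := fun x y => (hF x y).2.1
    have a3 := (hF x y).2.2.1
    have a4 := (hF x y).2.2.2
    have a5 : F (-y, -x) = F (x, y) := by rw [(hF y x).2.2.2, a3]
    simp only [a1, a2, a3, a4, a5]
    simp only [if_true, Bool.false_eq_true, if_false]
    ring

theorem hDimO (_hTrc : StTrc) : StDimO := by
  intro k hk
  obtain ⟨m, rfl⟩ : ∃ m, k = m + 2 := ⟨k - 2, by omega⟩
  have : NeZero (2 ^ (m + 2)) := ⟨pow_ne_zero _ two_ne_zero⟩
  have h2 : ((2 ^ (m + 2) : ℕ) : ZMod (2 ^ (m + 2))) = 0 := ZMod.natCast_self _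
  push_cast at h2
  have hq : (2 : ZMod (2 ^ (m + 2))) ^ (m + 1) + 2 ^ (m + 1) = 0 := by
    rw [← h2]
    ring
  have ht : (2 : ZMod (2 ^ (m + 2))) ^ m + 2 ^ m = 2 ^ (m + 1) := by ring
  have hq0 : (2 : ZMod (2 ^ (m + 2))) ^ (m + 1) ≠ 0 := by
    intro h
    have h3 : ((2 ^ (m + 1) : ℕ) : ZMod (2 ^ (m + 2))) = 0 := by
      push_cast
      exact h
    rw [ZMod.natCast_eq_zero_iff] at h3
    have h4 := Nat.le_of_dvd (by positivity) h3
    have h5 : 2 ^ (m + 1) < 2 ^ (m + 2) := Nat.pow_lt_pow_right one_lt_two (by omega)
    omega
  have key := dim_aux ((2 : ZMod (2 ^ (m + 2))) ^ (m + 1)) (2 ^ m) hq hq0 ht (antiO (m + 2))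
    (fun F => Iff.rfl)
  rw [ZMod.card] at key
  have h6 : m + 2 - 2 = m := by omega
  rw [h6]
  have h7 : (Module.finrank ℂ (antiO (m + 2)) : ℂ) = ((2 ^ m * (2 ^ m + 1) : ℕ) : ℂ) := by
    have h8 : (((2 ^ (m + 2) : ℕ)) : ℂ) = 4 * (2 : ℂ) ^ m := by
      push_cast
      ring
    rw [h8] at key
    push_cast
    linear_combination (1 / 16 : ℂ) * key
  exact_mod_cast h7

end Pool.Agent.Helper71.CV
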